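import Pool.Agent.H7.LP.Targets

/-!
# Row BND of the board lpg_modules: nodes are Borel
-/

set_option autoImplicit false

open Set Filter Topology

namespace Pool.Agent.H97.LP

open Pool.Agent.H93.CP Pool.Agent.H7.LP

/-- two closed sets which meet the same sets of a basis are equal -/
theorem closure_eq_iff {T : Type} [TopologicalSpace T] {B : Set (Set T)}
    (hB : TopologicalSpace.IsTopologicalBasis B) {S Y : Set T} (hY : IsClosed Y) :
    closure S = Y ↔ ∀ U ∈ B, ((S ∩ U).Nonempty ↔ (Y ∩ U).Nonempty) := by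
  constructor
  · rintro rfl U hU
    have hUo := hB.isOpen hU
    constructor
    · rintro ⟨a, h1, h2⟩
      exact ⟨a, subset_closure h1, h2⟩
    · rintro ⟨a, h1, h2⟩
      obtain ⟨b, hb, hb'⟩ := mem_closure_iff.1 h1 U hUo h2
      exact ⟨b, hb', hb⟩
  · intro h
    apply Set.Subset.antisymm
    · intro a ha
      by_contra hn
      obtain ⟨U, hU, haU, hUY⟩ := hB.exists_subset_of_mem_open (show a ∈ Yᶜ from hn)
        hY.isOpen_compl
      obtain ⟨b, hb, hb'⟩ := mem_closure_iff.1 ha U (hB.isOpen hU) haU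
      obtain ⟨c, hc, hc'⟩ := (h U hU).1 ⟨b, hb', hb⟩
      exact hUY hc' hc
    · intro a ha
      rw [hB.mem_closure_iff]
      intro U hU haU
      obtain ⟨b, hb, hb'⟩ := (h U hU).2 ⟨a, ha, haU⟩
      exact ⟨b, hb', hb⟩

theorem pf_BND : T_BND := by
  intro G X _ _ _ _ _ _ _ _ L M _ Y S q
  obtain ⟨B, hBc, -, hB⟩ := TopologicalSpace.exists_countable_basis G
  set R := L.R (S.k q) with hR
  -- the hits
  have key : ∀ (n : ℕ), ∀ U ∈ B, MeasurableSet {p : X × G |
      ({a | ∃ r ∈ R, a * r * p.2 ∈ Y.C p.1 n} ∩ U).Nonempty} := by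
    intro n U hU
    have hUo := hB.isOpen hU
    set O : Set (G × G) := {z | ∃ r ∈ R, z.1 * z.2⁻¹ * r⁻¹ ∈ U} with hO
    have hOo : IsOpen O := by
      have : O = ⋃ r ∈ R, {z : G × G | z.1 * z.2⁻¹ * r⁻¹ ∈ U} := by
        ext z
        simp [hO]
      rw [this]
      refine isOpen_biUnion fun r _ => ?_
      exact hUo.preimage (by fun_prop)
    have hset : {p : X × G | ({a | ∃ r ∈ R, a * r * p.2 ∈ Y.C p.1 n} ∩ U).Nonempty} =
        ⋃ V ∈ B, ⋃ V' ∈ B, {p : X × G | V ×ˢ V' ⊆ O ∧ (Y.C p.1 n ∩ V).Nonempty ∧ p.2 ∈ V'} := by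
      ext p
      simp only [mem_iUnion, exists_prop, mem_ofPred_eq]
      constructor
      · rintro ⟨a, ⟨r, hr, hc⟩, haU⟩
        have hz : (a * r * p.2, p.2) ∈ O := by
          refine ⟨r, hr, ?_⟩
          simpa [mul_assoc] using haU
        obtain ⟨W, hW, hzW, hWO⟩ := (hB.prod hB).exists_subset_of_mem_open hz hOo
        obtain ⟨V, hV, V', hV', rfl⟩ := hW
        exact ⟨V, hV, V', hV', hWO, ⟨_, hc, hzW.1⟩, hzW.2⟩
      · rintro ⟨V, -, V', -, hVO, ⟨c, hc, hcV⟩, hp⟩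
        obtain ⟨r, hr, hcr⟩ := hVO (show (c, p.2) ∈ V ×ˢ V' from ⟨hcV, hp⟩)
        refine ⟨c * p.2⁻¹ * r⁻¹, ⟨r, hr, ?_⟩, hcr⟩
        simpa [mul_assoc] using hc
    rw [hset]
    refine MeasurableSet.biUnion hBc fun V hV => MeasurableSet.biUnion hBc fun V' hV' => ?_
    by_cases h : V ×ˢ V' ⊆ O
    · have : {p : X × G | V ×ˢ V' ⊆ O ∧ (Y.C p.1 n ∩ V).Nonempty ∧ p.2 ∈ V'} =
          {x : X | (Y.C x n ∩ V).Nonempty} ×ˢ V' := by
        ext p
        simp [h]
      rw [this]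
      exact (Y.meas n V (hB.isOpen hV)).prod (hB.isOpen hV').measurableSet
    · have : {p : X × G | V ×ˢ V' ⊆ O ∧ (Y.C p.1 n ∩ V).Nonempty ∧ p.2 ∈ V'} = ∅ := by
        ext p
        simp [h]
      rw [this]
      exact MeasurableSet.empty
  have hfin : {p : X × G | S.Node p.1 q p.2} = ⋂ n : ℕ, ⋂ U ∈ B, {p : X × G |
      (({a | ∃ r ∈ R, a * r * p.2 ∈ Y.C p.1 n} ∩ U).Nonempty ↔ (S.y q n ∩ U).Nonempty)} := by
    ext p
    simp only [mem_iInter, mem_ofPred_eq]
    constructor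
    · intro h n
      have h1 := congrFun h n
      exact (closure_eq_iff hB (S.ycl q n)).1 h1
    · intro h
      refine funext fun n => ?_
      exact (closure_eq_iff hB (S.ycl q n)).2 (h n)
  rw [hfin]
  refine MeasurableSet.iInter fun n => MeasurableSet.biInter hBc fun U hU => ?_
  by_cases h : (S.y q n ∩ U).Nonempty
  · simp only [h, iff_true]
    exact key n U hU
  · simp only [h, iff_false]
    exact (key n U hU).compl

end Pool.Agent.H97.LP
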