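import Pool.Agent.H7.LP.Targets

/-!
# Row BPR of the board lpg_modules: the presence of a type is Borel
-/

set_option autoImplicit false

open Set Filter Topology

namespace Pool.Agent.H97.LP

open Pool.Agent.H93.CP Pool.Agent.H7.LP

/-- projections along compact sets -/
theorem isClosed_proj {X G : Type} [TopologicalSpace X] [TopologicalSpace G] {K : Set G}
    (hK : IsCompact K) {F : Set (X × G)} (hF : IsClosed F) :
    IsClosed {x : X | ∃ c ∈ K, (x, c) ∈ F} := by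
  haveI : CompactSpace K := isCompact_iff_compactSpace.1 hK
  have h1 : IsClosed {p : X × K | (p.1, (p.2 : G)) ∈ F} :=
    hF.preimage (by fun_prop)
  have h2 := isClosedMap_fst_of_compactSpace (X := X) (Y := K) _ h1
  have h3 : {x : X | ∃ c ∈ K, (x, c) ∈ F} =
      Prod.fst '' {p : X × K | (p.1, (p.2 : G)) ∈ F} := by
    ext x
    constructor
    · rintro ⟨c, hc, h⟩
      exact ⟨(x, ⟨c, hc⟩), h, rfl⟩
    · rintro ⟨⟨x', c⟩, h, rfl⟩
      exact ⟨c, c.2, h⟩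
  rw [h3]
  exact h2

theorem pf_BPR (h1 : T_LAB) (h2 : T_SGC) (h3 : T_OCI) (h4 : T_CLR) : T_BPR := by
  intro G X _ _ _ _ _ _ L M _ Y S q
  obtain ⟨-, hl2, hl3, -⟩ := h1 G
  have hP := L.piece (S.k q)
  obtain ⟨C, hC1, hC2, hC3⟩ := h2 G _ _ hP
  obtain ⟨g, hg⟩ := h3 G _ hP.op
  obtain ⟨t, ht1, ht2, -, ht3⟩ := h4 G X M Y _ _ g hP
  letI := t
  have hset : {x : X | ∃ a, S.Node x q a} = ⋃ i : ℕ, ⋃ l : ℕ, {x : X | ∃ c ∈ C l,
      (x, c) ∈ {p : X × G | p.2 ∈ L.H (S.k q) ∧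
        lab (L.R (S.k q)) (tr (p.2 * g i) (Y.C p.1)) = S.y q}} := by
    ext x
    simp only [mem_iUnion, mem_ofPred_eq]
    constructor
    · rintro ⟨a, ha⟩
      obtain ⟨i, hi⟩ := hg a
      obtain ⟨l, c, hc, hr⟩ := hC3 _ hi
      refine ⟨i, l, c, hc, hC2 l c hc, ?_⟩
      have e1 : a = a * (g i)⁻¹ * g i := by group
      have e2 : a * (g i)⁻¹ = c * (c⁻¹ * (a * (g i)⁻¹)) := by group
      have ha' : lab (L.R (S.k q)) (tr a (Y.C x)) = S.y q := ha
      set h := a * (g i)⁻¹ with hh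
      set r := c⁻¹ * h with hrr
      rw [← ha']
      calc lab (L.R (S.k q)) (tr (c * g i) (Y.C x))
          = lab (L.R (S.k q)) (tr c (tr (g i) (Y.C x))) := by rw [tr_mul]
        _ = tr c (lab (L.R (S.k q)) (tr (g i) (Y.C x))) := hl2 _ _ _ hP _ (hC2 l c hc)
        _ = tr c (tr r (lab (L.R (S.k q)) (tr (g i) (Y.C x)))) := by rw [hl3 _ _ _ hr]
        _ = tr (c * r) (lab (L.R (S.k q)) (tr (g i) (Y.C x))) := (tr_mul _ _ _).symm
        _ = tr h (lab (L.R (S.k q)) (tr (g i) (Y.C x))) := by rw [← e2]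
        _ = lab (L.R (S.k q)) (tr h (tr (g i) (Y.C x))) := (hl2 _ _ _ hP _ hi).symm
        _ = lab (L.R (S.k q)) (tr a (Y.C x)) := by rw [← tr_mul, ← e1]
    · rintro ⟨i, l, c, -, -, h⟩
      exact ⟨_, h⟩
  rw [hset]
  refine MeasurableSet.iUnion fun i => MeasurableSet.iUnion fun l => ?_
  exact (isClosed_proj (hC1 l) (ht3 i _ (S.ycl q))).measurableSet

end Pool.Agent.H97.LP
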